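import Pool.Agent.KS6_84.Hld.Main

set_option autoImplicit false

/-!
# MP_19b229_an : solutions of `P(D) u = μ` with small mean oscillation at `|μ|`-almost every point

The question concerns `-Δ u = μ` with `u` Hölder continuous. Here the Laplacian is replaced by an
arbitrary homogeneous constant-coefficient operator of order `m + 1`, `Ω` is any open set, and
Hölder continuity is replaced by a pointwise, averaged and non-uniform condition with respect to a
doubling gauge `h`.
-/

namespace Pool.Agent.Results.MP_19b229_an.GeneralOperators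

open MeasureTheory Filter Topology Metric Set Pool.Agent.H.MP_19b229_an KS6_84.Hld
open scoped ENNReal NNReal ContDiff

/-- `u` solves `P(D) u = μ` in `Ω` in the sense of distributions, where the adjoint operator is
`φ ↦ T (D^(m+1) φ)`. -/
def Solves {N m : ℕ} (T : (E N [×(m + 1)]→L[ℝ] ℝ) →L[ℝ] ℝ) (Ω : Set (E N))
    (u : E N → ℝ) (μ : SignedMeasure (E N)) : Prop :=
  ∀ φ : E N → ℝ, ContDiff ℝ ∞ φ → HasCompactSupport φ → tsupport φ ⊆ Ω →
    ∫ x, u x * T (iteratedFDeriv ℝ (m + 1) φ x) =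
      ∫ x, φ x ∂μ.toJordanDecomposition.posPart - ∫ x, φ x ∂μ.toJordanDecomposition.negPart

/-- **Theorem.** Let `P(D)` be a homogeneous constant-coefficient operator of order `m + 1` on
`ℝ^N` and `D` a real number. There is a constant `C` such that for every gauge `h` with
`h(2r) ≤ D h(r)`, every open `Ω`, every finite signed measure `μ` on `Ω` and every locally
integrable solution `u` of `P(D) u = μ` in `Ω`:
* if for `|μ|`-almost every `x` there are `M`, `δ` and constants `c_r` with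
  `∫_{B(x,r)} |u - c_r| ≤ M r^(m+1) h(r)` for `r < δ`, then `μ` is the strong limit of signed
  measures `ν_n` on `Ω` with `|ν_n| ≤ c_n H^h`, for every sequence `c_n → ∞`;
* if `M` can be taken the same at `|μ|`-almost every point, then `|μ| ≤ C M H^h`. -/
theorem result (N m : ℕ) (T : (E N [×(m + 1)]→L[ℝ] ℝ) →L[ℝ] ℝ) (D : ℝ) : ∃ C : ℝ,
    ∀ h : ℝ → ℝ, Gauge h D → ∀ Ω : Set (E N), IsOpen Ω → ∀ μ : SignedMeasure (E N),
    μ.totalVariation Ωᶜ = 0 → ∀ u : E N → ℝ, LocallyIntegrableOn u Ω → Solves T Ω u μ →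
    ((∀ᵐ x ∂μ.totalVariation, ∃ M, Osc h (m + 1) u M x) →
      ∀ c : ℕ → ℝ, Tendsto c atTop atTop → StrongLimit h Ω μ c) ∧
    (∀ M, 0 < M → (∀ᵐ x ∂μ.totalVariation, Osc h (m + 1) u M x) →
      μ.totalVariation ≤ ENNReal.ofReal (C * M) • HM N h) := by
  obtain ⟨K, hK, ht⟩ := pde_test T
  refine ⟨2 * (2 * (K * 2 ^ (m + 1) * D) + 1), fun h g Ω ho μ hμ u hu heq => ?_⟩
  have hd : ∀ h', Gauge h' D → ∀ᵐ x ∂μ.totalVariation, ∀ M, Osc h' (m + 1) u M x →
      Dens h' μ.totalVariation (2 * (2 * (K * M * 2 ^ (m + 1) * D) + 1)) x := fun h' g' =>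
    dens_of_test g' μ hK hμ (ht Ω ho μ u hu heq)
  refine ⟨fun hosc c hc => ?_, fun M hM hosc => unif g μ hK hd hM hosc⟩
  refine approx g Ω μ hμ ?_ c hc
  filter_upwards [hd h g, hosc] with x hx ⟨M, hM⟩
  exact ⟨_, hx M hM⟩

end Pool.Agent.Results.MP_19b229_an.GeneralOperators
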