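import Pool.Agent.H85.HZ.Core

/-!
# MP_19b229_an: pointwise Hölder potentials and general moduli of continuity

`E N` is `ℝ^N`, `Gam N` is `-log ‖x‖` for `N = 2` and `‖x‖ ^ (2 - N)` otherwise, `pot c μ` is the
potential of the signed measure `μ` for the kernel `c * Gam N`; with `c` the usual normalising
constant this is the Newtonian potential.
-/

set_option autoImplicit false

namespace Pool.Agent.Results.MP_19b229_an.PointwiseModuli

open MeasureTheory Filter Topology Pool.Agent.H.MP_19b229_an Pool.Agent.H85.HZ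
open scoped ENNReal NNReal

/-- For every `b > 0` there are signed measures `m n` with `|m n| ≤ |μ|` and `|m n| ≤ n b H` for
all `n`, which converge strongly to `μ`. -/
def StrongApprox {N : ℕ} (μ : SignedMeasure (E N)) (H : Measure (E N)) : Prop :=
  ∀ b : ℝ≥0, 0 < b → ∃ m : ℕ → SignedMeasure (E N),
    (∀ n, (m n).totalVariation ≤ μ.totalVariation) ∧
    (∀ n : ℕ, (m n).totalVariation ≤ (n : ℝ≥0∞) • (b : ℝ≥0∞) • H) ∧
    Tendsto (fun n => (m n - μ).totalVariation Set.univ) atTop (𝓝 0)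

/-- Let `N ≥ 2`, let `Ω` be a bounded set and let `μ` be a finite signed measure concentrated on
`Ω`. `ModAt c μ ω K x` says that there are `a` and `δ > 0` with `|u_μ(y) - a| ≤ K ω(|y - x|)` for
almost every `y` in `B(x, δ)`. `IsGauge D ω` says that `ω` is a modulus of continuity with
`ω(2 r) ≤ D ω(r)`, and `HG (gau N ω)` is the Hausdorff measure with the gauge function
`r ^ (N - 2) ω(r)`.

1. If the potential of `μ` is Hölder continuous with exponent `β > 0` at `|μ|`-almost every point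
   `x` (with constants which depend on `x`), then `μ` is the strong limit of measures
   `μ_n ≤ n b H^{N - 2 + β}`, for every `b > 0`.
2. The same for a general modulus of continuity `ω` and the gauge function `r ^ (N - 2) ω(r)`.
3. If the constant `K` in the pointwise condition does not depend on `x`, then
   `|μ| ≤ L K H^{r ^ (N - 2) ω(r)}` where `L` depends only on `N`, `c` and `D`.
4. In particular, if `Ω` is open and the potential agrees almost everywhere in `Ω` with a function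
   which is Hölder continuous on `Ω` with exponent `β`, then both conclusions hold. -/
theorem result (N : ℕ) (hN : 2 ≤ N) (c : ℝ) (hc : c ≠ 0) :
    (∀ (Ω : Set (E N)) (μ : SignedMeasure (E N)), Bornology.IsBounded Ω →
      μ.totalVariation Ωᶜ = 0 → ∀ β : ℝ, 0 < β →
      (∀ᵐ x ∂μ.totalVariation, ∃ K, ModAt c μ (fun r => r ^ β) K x) →
      StrongApprox μ μH[N - 2 + β]) ∧
    (∀ (Ω : Set (E N)) (μ : SignedMeasure (E N)), Bornology.IsBounded Ω →
      μ.totalVariation Ωᶜ = 0 → ∀ (D : ℝ) (ω : ℝ → ℝ), IsGauge D ω →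
      (∀ᵐ x ∂μ.totalVariation, ∃ K, ModAt c μ ω K x) → StrongApprox μ (HG (gau N ω))) ∧
    (∀ D : ℝ, ∃ L : ℝ≥0, ∀ (Ω : Set (E N)) (μ : SignedMeasure (E N)), Bornology.IsBounded Ω →
      μ.totalVariation Ωᶜ = 0 → ∀ ω : ℝ → ℝ, IsGauge D ω → ∀ K : ℝ≥0, 0 < K →
      (∀ᵐ x ∂μ.totalVariation, ModAt c μ ω K x) →
      μ.totalVariation ≤ (L * K : ℝ≥0∞) • HG (gau N ω)) ∧
    ∀ (Ω : Set (E N)) (μ : SignedMeasure (E N)), IsOpen Ω → Bornology.IsBounded Ω →
      μ.totalVariation Ωᶜ = 0 → ∀ (β K : ℝ≥0) (u : E N → ℝ), 0 < β → HolderOnWith K β u Ω →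
      (∀ᵐ x ∂volume.restrict Ω, pot c μ x = u x) →
      StrongApprox μ μH[N - 2 + β] ∧ ∃ C : ℝ≥0, μ.totalVariation ≤ (C : ℝ≥0∞) • μH[N - 2 + β] := by
  have h1 : ∀ (Ω : Set (E N)) (μ : SignedMeasure (E N)), Bornology.IsBounded Ω →
      μ.totalVariation Ωᶜ = 0 → ∀ β : ℝ, 0 < β →
      (∀ᵐ x ∂μ.totalVariation, ∃ K, ModAt c μ (fun r => r ^ β) K x) →
      StrongApprox μ μH[N - 2 + β] := by
    intro Ω μ hb hμ β hβ H b hb0
    rw [← HG_rpow hN hβ]
    exact core_seq hN hb hc μ hμ (isGauge_rpow hβ) H b hb0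
  refine ⟨h1, fun Ω μ hb hμ D ω hω H b hb0 => core_seq hN hb hc μ hμ hω H b hb0, fun D => ?_, ?_⟩
  · obtain ⟨L, hL⟩ := core_unif hN D c hc
    exact ⟨L, fun Ω μ hb hμ ω hω K hK H => hL Ω hb μ hμ ω hω K hK H⟩
  · intro Ω μ ho hb hμ β K u hβ hu he
    have hβ' : (0 : ℝ) < β := hβ
    have hae : ∀ᵐ x ∂μ.totalVariation, x ∈ Ω := hμ
    refine ⟨h1 Ω μ hb hμ β hβ' (hae.mono fun x hx => ⟨K, modAt_of_holder ho μ hu he hx⟩), ?_⟩
    obtain ⟨L, hL⟩ := core_unif hN (2 ^ (β : ℝ)) c hc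
    refine ⟨L * (K + 1), ?_⟩
    have := hL Ω hb μ hμ _ (isGauge_rpow hβ') (K + 1) (by positivity) (hae.mono fun x hx =>
      (modAt_of_holder ho μ hu he hx).mono (isGauge_rpow hβ') (by push_cast; linarith))
    rwa [HG_rpow hN hβ', ← ENNReal.coe_mul] at this

end Pool.Agent.Results.MP_19b229_an.PointwiseModuli
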