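import Pool.Agent.KS6_84.Hld.Main

set_option autoImplicit false

/-!
# MP_19b229_an : the strong closure of Hausdorff-dominated measures and the mean oscillation of
potentials

For a finite signed measure `μ` on a bounded open set `Ω` of `ℝ^N` the strong approximation by
measures dominated by multiples of a Hausdorff measure is characterised by the pointwise mean
oscillation of the Newtonian potential at `|μ|`-almost every point. This contains the answer (yes)
to the question for Hölder continuous potentials, and it holds for every doubling gauge instead of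
`r^(N-2+β)`, with pointwise, non-uniform, averaged conditions instead of Hölder continuity.
-/

namespace Pool.Agent.Results.MP_19b229_an.StrongClosure

open MeasureTheory Filter Topology Metric Set Pool.Agent.H.MP_19b229_an KS6_84.Hld
open scoped ENNReal NNReal

/-- The mean oscillation criterion, for every gauge `h` with `h (2r) ≤ D h r`. For a finite signed
measure `μ` on a bounded set `Ω`: if at `|μ|`-almost every `x` there are `M`, `δ`, `c_r` with
`∫_{B(x,r)} |u_μ - c_r| ≤ M r^2 h(r)` for `r < δ`, then `μ` is a strong limit of measures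
`|ν_n| ≤ c_n H^h`, for every `c_n → ∞`; conversely, if `D < 2^(N-1)` and `μ` is a strong limit of
measures `|ν_n| ≤ c_n H^h` for some real numbers `c_n`, then the condition holds; and if `M` can be
taken the same at `|μ|`-almost every point then `|μ| ≤ C M H^h`. The condition holds at every point
of `Ω`, with `M = K ω_N`, if `h(r) = r^(N-2) w(r)`, `Ω` is open and `u_μ` agrees almost everywhere
in `Ω` with a function with modulus of continuity `K w`. -/
def MeanOscillationCriterion : Prop :=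
  ∀ (N : ℕ), 2 ≤ N → ∀ D : ℝ, ∃ C : ℝ, ∀ h : ℝ → ℝ, Gauge h D → ∀ Ω : Set (E N),
    Bornology.IsBounded Ω → ∀ μ : SignedMeasure (E N), μ.totalVariation Ωᶜ = 0 →
    ((∀ᵐ x ∂μ.totalVariation, ∃ M, Osc h 2 (newton μ) M x) →
      ∀ c : ℕ → ℝ, Tendsto c atTop atTop → StrongLimit h Ω μ c) ∧
    (D < 2 ^ (N - 1) → (∃ c : ℕ → ℝ, StrongLimit h Ω μ c) →
      ∀ᵐ x ∂μ.totalVariation, ∃ M, Osc h 2 (newton μ) M x) ∧
    (∀ M, 0 < M → (∀ᵐ x ∂μ.totalVariation, Osc h 2 (newton μ) M x) →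
      μ.totalVariation ≤ ENNReal.ofReal (C * M) • HM N h) ∧
    (∀ w : ℝ → ℝ, (∀ s t, 0 ≤ s → s ≤ t → w s ≤ w t) → h = (fun r => r ^ (N - 2) * w r) →
      IsOpen Ω → ∀ (v : E N → ℝ) (K : ℝ), 0 ≤ K →
      (∀ x ∈ Ω, ∀ y ∈ Ω, |v x - v y| ≤ K * w (dist x y)) →
      (∀ᵐ x ∂volume.restrict Ω, newton μ x = v x) →
      ∀ x ∈ Ω, Osc h 2 (newton μ) (K * (volume (ball (0 : E N) 1)).toReal) x)

/-- The setting of the question, `0 < β < 1`: `μ` is a strong limit of measures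
`≤ n H^(N-2+β)` if and only if at `|μ|`-almost every point `x` the means over `B(x,r)` of
`|u_μ - c_r|` are `O(r^β)`; and if `u_μ` agrees almost everywhere in `Ω` with a Hölder continuous
function with exponent `β` then `|μ| ≤ C H^(N-2+β)` and `μ` is such a limit. -/
def QuestionSetting : Prop :=
  ∀ (N : ℕ), 2 ≤ N → ∀ β : ℝ, 0 < β → β < 1 → ∀ Ω : Set (E N), IsOpen Ω →
      Bornology.IsBounded Ω → ∀ μ : SignedMeasure (E N), μ.totalVariation Ωᶜ = 0 →
      ((∃ ν : ℕ → SignedMeasure (E N), (∀ n, (ν n).totalVariation Ωᶜ = 0) ∧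
          (∀ n : ℕ, (ν n).totalVariation ≤ (n : ℝ≥0∞) • μH[(N : ℝ) - 2 + β]) ∧
          Tendsto (fun n => (ν n - μ).totalVariation univ) atTop (𝓝 0)) ↔
        ∀ᵐ x ∂μ.totalVariation, ∃ M δ : ℝ, 0 < δ ∧ ∀ r ∈ Ioo 0 δ, ∃ c : ℝ,
          ∫ y in closedBall x r, |newton μ y - c| ≤ M * r ^ ((N : ℝ) + β)) ∧
      (∀ (v : E N → ℝ) (K : ℝ), (∀ x ∈ Ω, ∀ y ∈ Ω, |v x - v y| ≤ K * dist x y ^ β) →
        (∀ᵐ x ∂volume.restrict Ω, newton μ x = v x) →
        (∃ C : ℝ≥0, μ.totalVariation ≤ (C : ℝ≥0∞) • μH[(N : ℝ) - 2 + β]) ∧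
        ∃ ν : ℕ → SignedMeasure (E N), (∀ n, (ν n).totalVariation Ωᶜ = 0) ∧
          (∀ n : ℕ, (ν n).totalVariation ≤ (n : ℝ≥0∞) • μH[(N : ℝ) - 2 + β]) ∧
          Tendsto (fun n => (ν n - μ).totalVariation univ) atTop (𝓝 0))

/-- The criterion, and what it says in the setting of the question. -/
theorem result : MeanOscillationCriterion ∧ QuestionSetting := by
  have hA : ∀ (N : ℕ), 2 ≤ N → ∀ D : ℝ, ∃ C : ℝ, ∀ h : ℝ → ℝ, Gauge h D → ∀ Ω : Set (E N),
      Bornology.IsBounded Ω → ∀ μ : SignedMeasure (E N), μ.totalVariation Ωᶜ = 0 →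
      (∀ M, 0 < M → (∀ᵐ x ∂μ.totalVariation, Osc h 2 (newton μ) M x) →
        μ.totalVariation ≤ ENNReal.ofReal (C * M) • HM N h) ∧
      ((∀ᵐ x ∂μ.totalVariation, ∃ M, Osc h 2 (newton μ) M x) → μ.totalVariation ≪ HM N h) ∧
      (D < 2 ^ (N - 1) → (μ.totalVariation ≪ HM N h ↔
        ∀ᵐ x ∂μ.totalVariation, ∃ M, Osc h 2 (newton μ) M x)) := by
    intro N hN D
    obtain ⟨K, hK, hd⟩ := newton_dens (N := N) hN
    refine ⟨2 * (2 * (K * 2 ^ 2 * D) + 1), fun h g Ω hb μ hμ => ?_⟩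
    have h1 : (∀ᵐ x ∂μ.totalVariation, ∃ M, Osc h 2 (newton μ) M x) →
        μ.totalVariation ≪ HM N h := fun ho => by
      refine (closure_iff g Ω μ hμ).1.2 ?_
      filter_upwards [hd h D g Ω hb μ hμ, ho] with x hx ⟨M, hM⟩
      exact ⟨_, hx M hM⟩
    refine ⟨fun M hM ho => unif g μ hK (fun h' g' => hd h' D g' Ω hb μ hμ) hM ho, h1,
      fun hD2 => ⟨fun ha => ?_, h1⟩⟩
    obtain ⟨c₀, hc₀, he⟩ := newton_eq (N := N) hN
    obtain ⟨R, hR⟩ := ae_bdd hb μ hμ
    filter_upwards [(closure_iff g Ω μ hμ).1.1 ha] with x hx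
    rw [he]
    exact osc_of_dens hN g hD2 c₀ μ hR x hx
  refine ⟨fun N hN D => ?_, ?_⟩
  · obtain ⟨C, hC⟩ := hA N hN D
    refine ⟨C, fun h g Ω hb μ hμ => ?_⟩
    have hcl := closure_iff g Ω μ hμ
    obtain ⟨h1, h2, h3⟩ := hC h g Ω hb μ hμ
    refine ⟨fun ho => hcl.2.2.1 (h2 ho), fun hD hc => (h3 hD).1 (hcl.2.1.2 hc), h1,
      fun w hw he ho v K hK hv huv x hx => ?_⟩
    rw [he]
    exact osc_of_modulus hN hw hK ho hv huv hx
  · intro N hN β hβ hβ1 Ω ho hb μ hμ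
    have hN' : (2 : ℝ) ≤ N := by exact_mod_cast hN
    have hs : 0 < (N : ℝ) - 2 + β := by linarith
    have g := gauge_rpow hs
    have hD2 : (2 : ℝ) ^ ((N : ℝ) - 2 + β) < 2 ^ (N - 1) := by
      rw [← Real.rpow_natCast, Nat.cast_sub (by omega)]
      refine Real.rpow_lt_rpow_of_exponent_lt (by norm_num) ?_
      push_cast
      linarith
    have hcl := closure_iff g Ω μ hμ
    obtain ⟨C, hC⟩ := hA N hN (2 ^ ((N : ℝ) - 2 + β))
    have hac := (hC _ g Ω hb μ hμ).2.2 hD2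
    have hsl : ∀ ν : ℕ → SignedMeasure (E N),
        (∀ n : ℕ, (ν n).totalVariation ≤ ENNReal.ofReal ((n : ℕ) : ℝ) •
          HM N fun r : ℝ => r ^ ((N : ℝ) - 2 + β)) ↔
        (∀ n : ℕ, (ν n).totalVariation ≤ (n : ℝ≥0∞) • μH[(N : ℝ) - 2 + β]) := fun ν => by
      rw [HM_rpow hs]
      simp only [ENNReal.ofReal_natCast]
    have hL : (∃ ν : ℕ → SignedMeasure (E N), (∀ n, (ν n).totalVariation Ωᶜ = 0) ∧
          (∀ n : ℕ, (ν n).totalVariation ≤ (n : ℝ≥0∞) • μH[(N : ℝ) - 2 + β]) ∧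
          Tendsto (fun n => (ν n - μ).totalVariation univ) atTop (𝓝 0)) ↔
        μ.totalVariation ≪ HM N fun r : ℝ => r ^ ((N : ℝ) - 2 + β) := by
      constructor
      · rintro ⟨ν, h1, h2, h3⟩
        exact hcl.2.1.2 ⟨fun n => (n : ℝ), ν, h1, (hsl ν).2 h2, h3⟩
      · intro ha
        obtain ⟨ν, h1, h2, h3⟩ := hcl.2.2.1 ha (fun n => (n : ℝ)) tendsto_natCast_atTop_atTop
        exact ⟨ν, h1, (hsl ν).1 h2, h3⟩
    have hpow : ∀ r : ℝ, 0 < r → r ^ 2 * r ^ ((N : ℝ) - 2 + β) = r ^ ((N : ℝ) + β) := fun r hr => by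
      rw [← Real.rpow_natCast r 2, ← Real.rpow_add hr]
      congr 1
      push_cast
      ring
    refine ⟨?_, fun v K hv huv => ?_⟩
    · rw [hL, hac]
      refine ⟨fun h => h.mono ?_, fun h => h.mono ?_⟩
      · rintro x ⟨M, δ, hδ, hx⟩
        refine ⟨M, δ, hδ, fun r hr => ?_⟩
        obtain ⟨c, hc⟩ := hx r hr
        exact ⟨c, hc.trans_eq (by rw [mul_assoc, hpow r hr.1])⟩
      · rintro x ⟨M, δ, hδ, hx⟩
        refine ⟨M, δ, hδ, fun r hr => ?_⟩
        obtain ⟨c, hc⟩ := hx r hr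
        exact ⟨c, hc.trans_eq (by rw [mul_assoc, hpow r hr.1])⟩
    · have hw : ∀ s t : ℝ, 0 ≤ s → s ≤ t → s ^ β ≤ t ^ β := fun s t hs hst =>
        Real.rpow_le_rpow hs hst hβ.le
      have hK : 0 < |K| + 1 := by positivity
      have hosc : ∀ᵐ x ∂μ.totalVariation, Osc (fun r : ℝ => r ^ ((N : ℝ) - 2 + β)) 2 (newton μ)
          ((|K| + 1) * (volume (ball (0 : E N) 1)).toReal) x := by
        refine (show ∀ᵐ x ∂μ.totalVariation, x ∈ Ω from hμ).mono fun x hx => ?_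
        obtain ⟨δ, hδ, h1⟩ := osc_of_modulus (w := fun r => r ^ β) hN hw hK.le ho
          (fun x hx y hy => (hv x hx y hy).trans (mul_le_mul_of_nonneg_right
            (by linarith [le_abs_self K]) (by positivity))) huv hx
        refine ⟨δ, hδ, fun r hr => ?_⟩
        obtain ⟨c, hc⟩ := h1 r hr
        refine ⟨c, hc.trans_eq ?_⟩
        dsimp only
        congr 1
        rw [← Real.rpow_natCast r (N - 2), ← Real.rpow_add hr.1, Nat.cast_sub hN]
        norm_num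
      have hV : 0 < (volume (ball (0 : E N) 1)).toReal :=
        ENNReal.toReal_pos (measure_ball_pos _ _ one_pos).ne' measure_ball_lt_top.ne
      have h1 := (hC _ g Ω hb μ hμ).1 _ (by positivity) hosc
      refine ⟨⟨(C * ((|K| + 1) * (volume (ball (0 : E N) 1)).toReal)).toNNReal, ?_⟩, ?_⟩
      · rw [HM_rpow hs] at h1
        exact h1
      · exact hL.2 ((hC _ g Ω hb μ hμ).2.1 (hosc.mono fun x hx => ⟨_, hx⟩))

end Pool.Agent.Results.MP_19b229_an.StrongClosure
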