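import Pool.Agent.H85.HZ.Char

/-!
# MP_19b229_an: the strong limits of measures with Hölder continuous potentials

`E N` is `ℝ^N`, `Gam N` is `-log ‖x‖` for `N = 2` and `‖x‖ ^ (2 - N)` otherwise, `pot c μ` is the
potential of the signed measure `μ` for the kernel `c * Gam N`; with `c` the usual normalising
constant this is the Newtonian potential.
-/

set_option autoImplicit false

namespace Pool.Agent.Results.MP_19b229_an.StrongLimits

open MeasureTheory Filter Topology Set Pool.Agent.H.MP_19b229_an Pool.Agent.H85.HZ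
open scoped ENNReal NNReal

/-- `μ` is the strong limit of signed measures with the property `P`. -/
def IsStrongLimit {N : ℕ} (P : ℕ → SignedMeasure (E N) → Prop) (μ : SignedMeasure (E N)) : Prop :=
  ∃ m : ℕ → SignedMeasure (E N), (∀ n, P n (m n)) ∧
    Tendsto (fun n => (m n - μ).totalVariation univ) atTop (𝓝 0)

/-- Let `N ≥ 2`, `0 < β < 1`, let `Ω` be a bounded open subset of `ℝ^N` and let `μ` be a finite
signed measure on `Ω`. The following conditions are equivalent:

1. `μ` is the strong limit of measures `|m n| ≤ |μ|` whose potentials are Hölder continuous with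
   exponent `β` on the whole of `ℝ^N`;
2. `μ` is the strong limit of measures on `Ω` whose potentials agree almost everywhere in `Ω`
   with functions which are Hölder continuous with exponent `β` on `Ω`;
3. `μ` is the strong limit of measures `m n` on bounded sets whose potentials are Hölder
   continuous with exponent `β` at `|m n|`-almost every point (`ModAt`);
4. for every `b > 0`, `μ` is the strong limit of measures `|m n| ≤ |μ|` with
   `|m n| ≤ n b H^{N - 2 + β}` for all `n`;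
5. `μ` is the strong limit of measures `m n` with `|m n| ≤ C_n H^{N - 2 + β}`, for some `C_n`;
6. `|μ|(A) = 0` for every Borel set `A` with `H^{N - 2 + β}(A) = 0`.

The implication from 2 to 4, for a constant sequence, answers the question. -/
theorem result (N : ℕ) (hN : 2 ≤ N) (c : ℝ) (hc : c ≠ 0) (β : ℝ≥0) (h0 : 0 < β) (h1 : β < 1)
    (Ω : Set (E N)) (ho : IsOpen Ω) (hb : Bornology.IsBounded Ω) (μ : SignedMeasure (E N))
    (hμ : μ.totalVariation Ωᶜ = 0) : List.TFAE [
      IsStrongLimit (fun _ ν => ν.totalVariation ≤ μ.totalVariation ∧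
        ∃ K : ℝ≥0, HolderWith K β (pot c ν)) μ,
      IsStrongLimit (fun _ ν => ν.totalVariation Ωᶜ = 0 ∧
        ∃ (K : ℝ≥0) (u : E N → ℝ), HolderOnWith K β u Ω ∧
          ∀ᵐ x ∂volume.restrict Ω, pot c ν x = u x) μ,
      IsStrongLimit (fun _ ν => (∃ Ω' : Set (E N), Bornology.IsBounded Ω' ∧
        ν.totalVariation Ω'ᶜ = 0) ∧
          ∀ᵐ x ∂ν.totalVariation, ∃ K, ModAt c ν (fun r => r ^ (β : ℝ)) K x) μ,
      ∀ b : ℝ≥0, 0 < b → IsStrongLimit (fun n ν => ν.totalVariation ≤ μ.totalVariation ∧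
        ν.totalVariation ≤ (n : ℝ≥0∞) • (b : ℝ≥0∞) • μH[N - 2 + β]) μ,
      IsStrongLimit (fun _ ν => ∃ C : ℝ≥0, ν.totalVariation ≤ (C : ℝ≥0∞) • μH[N - 2 + β]) μ,
      ∀ A : Set (E N), MeasurableSet A → μH[N - 2 + β] A = 0 → μ.totalVariation A = 0] := by
  have h0' : (0 : ℝ) < β := h0
  have h1' : (β : ℝ) < 1 := h1
  have hg := gau_isGauge hN (isGauge_rpow h0')
  have hNH := HG_rpow hN h0'
  have hae : ∀ᵐ x ∂μ.totalVariation, x ∈ Ω := hμ
  tfae_have 1 → 2
  | ⟨m, hm, hl⟩ => by
    refine ⟨m, fun n => ⟨?_, ?_⟩, hl⟩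
    · exact le_antisymm (((hm n).1 _).trans hμ.le) bot_le
    · obtain ⟨K, hK⟩ := (hm n).2
      exact ⟨K, _, hK.holderOnWith Ω, Eventually.of_forall fun x => rfl⟩
  tfae_have 2 → 3
  | ⟨m, hm, hl⟩ => by
    refine ⟨m, fun n => ⟨⟨Ω, hb, (hm n).1⟩, ?_⟩, hl⟩
    obtain ⟨K, u, hu, he⟩ := (hm n).2
    have hae' : ∀ᵐ x ∂(m n).totalVariation, x ∈ Ω := (hm n).1
    exact hae'.mono fun x hx => ⟨K, modAt_of_holder ho (m n) hu he hx⟩
  tfae_have 3 → 6
  | ⟨m, hm, hl⟩ => by
    intro A hA hA0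
    refine tv_null_of_tendsto hA (fun n => ?_) hl
    obtain ⟨⟨Ω', hb', hn⟩, hmod⟩ := hm n
    obtain ⟨m', -, h3, h4⟩ := core_seq hN hb' hc (m n) hn (isGauge_rpow h0') hmod 1 one_pos
    refine tv_null_of_tendsto hA (fun k => ?_) h4
    refine le_antisymm ((h3 k A).trans ?_) bot_le
    rw [hNH, Measure.smul_apply, Measure.smul_apply, hA0]
    simp
  have hgood : (∀ A : Set (E N), MeasurableSet A → μH[N - 2 + β] A = 0 →
      μ.totalVariation A = 0) →
      (∀ᵐ x ∂μ.toJordanDecomposition.posPart, ∃ C η : ℝ, 0 < η ∧ ∀ r ∈ Ioo 0 η,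
        μ.toJordanDecomposition.posPart.real (Metric.closedBall x r) ≤
          C * gau N (fun r : ℝ => r ^ (β : ℝ)) r) ∧
      (∀ᵐ x ∂μ.toJordanDecomposition.negPart, ∃ C η : ℝ, 0 < η ∧ ∀ r ∈ Ioo 0 η,
        μ.toJordanDecomposition.negPart.real (Metric.closedBall x r) ≤
          C * gau N (fun r : ℝ => r ^ (β : ℝ)) r) := by
    intro h
    have h' : ∀ A, MeasurableSet A → HG (gau N fun r : ℝ => r ^ (β : ℝ)) A = 0 →
        μ.toJordanDecomposition.posPart A = 0 ∧ μ.toJordanDecomposition.negPart A = 0 := by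
      intro A hA hA0
      rw [hNH] at hA0
      have := h A hA hA0
      unfold SignedMeasure.totalVariation at this
      rwa [Measure.add_apply, add_eq_zero] at this
    exact ⟨good_ae _ hg fun A hA hA0 => (h' A hA hA0).1,
      good_ae _ hg fun A hA hA0 => (h' A hA hA0).2⟩
  tfae_have 6 → 1
  | h => by
    obtain ⟨g1, g2⟩ := hgood h
    obtain ⟨T, hT, hT1, hT2⟩ := frost_growth hN h0' _ g1
    obtain ⟨T', hT', hT1', hT2'⟩ := frost_growth hN h0' _ g2
    refine ⟨fun n => (jr μ (T n) (T' n)).toSignedMeasure, fun n => ⟨?_, ?_⟩, ?_⟩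
    · rw [jr_tv]
      exact add_le_add Measure.restrict_le_self Measure.restrict_le_self
    · obtain ⟨C, hC, hC1⟩ := hT1 n
      obtain ⟨C', hC', hC1'⟩ := hT1' n
      obtain ⟨K, hK, hK1⟩ := holderPot_jr hN h0' h1' hb c μ hμ hC hC' hC1 hC1'
      refine ⟨K.toNNReal, fun x y => ?_⟩
      rw [edist_dist, edist_dist, ENNReal.ofReal_rpow_of_nonneg dist_nonneg h0'.le]
      change ENNReal.ofReal (dist _ _) ≤ ENNReal.ofReal K * _
      rw [← ENNReal.ofReal_mul hK, Real.dist_eq]
      exact ENNReal.ofReal_le_ofReal (hK1 x y)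
    · simp only [jr_sub_tv μ (hT _) (hT' _)]
      simpa using hT2.add hT2'
  tfae_have 6 → 4
  | h => by
    obtain ⟨g1, g2⟩ := hgood h
    intro b hb0
    have hb2 : 0 < b / 2 := by positivity
    obtain ⟨T, hT, hT1, hT2⟩ := frost_seq _ hg g1 (b / 2) hb2
    obtain ⟨T', hT', hT1', hT2'⟩ := frost_seq _ hg g2 (b / 2) hb2
    refine ⟨fun n => (jr μ (T n) (T' n)).toSignedMeasure, fun n => ⟨?_, ?_⟩, ?_⟩
    · rw [jr_tv]
      exact add_le_add Measure.restrict_le_self Measure.restrict_le_self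
    · rw [jr_tv, ← hNH]
      refine (add_le_add (hT1 n) (hT1' n)).trans_eq ?_
      rw [← smul_add, ← add_smul]
      congr 2
      rw [← ENNReal.coe_add]
      congr 1
      exact add_halves b
    · simp only [jr_sub_tv μ (hT _) (hT' _)]
      simpa using hT2.add hT2'
  tfae_have 4 → 5
  | h => by
    obtain ⟨m, hm, hl⟩ := h 1 one_pos
    refine ⟨m, fun n => ⟨n, (hm n).2.trans_eq ?_⟩, hl⟩
    simp
  tfae_have 5 → 6
  | ⟨m, hm, hl⟩ => by
    intro A hA hA0
    refine tv_null_of_tendsto hA (fun n => ?_) hl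
    obtain ⟨C, hC⟩ := hm n
    refine le_antisymm ((hC A).trans ?_) bot_le
    rw [Measure.smul_apply, hA0]
    simp
  tfae_finish

end Pool.Agent.Results.MP_19b229_an.StrongLimits
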